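import Pool.Agent.helper24_UT.Ch16

set_option autoImplicit false

/-!
# Primes in Oppermann intervals, for almost all `n`, in all residue classes to all moduli up to `n exp (- B (log log n) ^ 2)`

Let `δ > 0` and `A` be fixed and let `N` be large. For all but at most `N / (log N) ^ A` of the integers `n ≤ N` the following holds
for both intervals `(n ^ 2 - n, n ^ 2]` and `(n ^ 2, n ^ 2 + n]`.
(1) The number of the primes in the interval differs from `n / (2 log n)` by at most `δ n / (2 log n)`.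
(2) The primes of the interval are equidistributed in the reduced residue classes in mean square over ALL moduli
`q ≤ Q = N exp (- B (log log N) ^ 2)`, i.e. almost up to the length of the interval, with any saving of a power of the logarithm, the
interval being cut off in every class at the most unfavourable place: the number of the primes `p ≡ r (mod q)`,
`u < p ≤ u + y(q, r)`, is `(1 / φ(q)) ∑_{u < m ≤ u + y(q, r)} 1 / log m` up to an error whose squares, summed over all these classes, have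
the sum at most `N ^ 2 / (log N) ^ A`.

Proof. `∑_{x ≤ X} |∑_{x < m ≤ x + K} D(m) e(m α)| ^ 2 ≤ X K ^ 2 / (log X) ^ A` for the difference `D` of the primes and their sieve
model, uniformly in `α`, for `K ≥ X ^ (1 / 3 + ε)` (`Pool.Agent.helper24_UT.Ch.t_MK`, the method of Mikawa) and the large sieve
give the assertion for almost all intervals `(x, x + K]`; a short shift of the intervals gives it for the special intervals.
-/

namespace Pool.Agent.Results.MP_a8fbd7_nt.AlmostAllAllModuli

open Finset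

/-- `A(n)`: the number of the primes `p` with `n ^ 2 - n ≤ p ≤ n ^ 2` -/
def cA (n : ℕ) : ℕ := ((Icc (n ^ 2 - n) (n ^ 2)).filter Nat.Prime).card

/-- `B(n)`: the number of the primes `p` with `n ^ 2 ≤ p ≤ n ^ 2 + n` -/
def cB (n : ℕ) : ℕ := ((Icc (n ^ 2) (n ^ 2 + n)).filter Nat.Prime).card

/-- the number of the primes `p ≡ r (mod q)` with `u < p ≤ u + y` (for `r < q`) -/
def count (q r u y : ℕ) : ℕ := ((Ioc u (u + y)).filter (fun p => p.Prime ∧ p % q = r)).card

/-- `∑_{u < m ≤ u + y} 1 / log m` -/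
noncomputable def logSum (u y : ℕ) : ℝ := ∑ m ∈ Ioc u (u + y), 1 / Real.log (m : ℝ)

/-- For all `Q ≤ N exp (- B (log log N) ^ 2)` and all choices of the lengths `y q r ≤ n` the sum, over all `q ≤ Q` and all reduced
residues `r` modulo `q`, of the squares of `count q r u y - logSum u y / φ(q)`, `y = y q r`, is at most `N ^ 2 / (log N) ^ A`. -/
def Classes (A B N n u : ℕ) : Prop := ∀ Q : ℕ, (Q : ℝ) ≤ N * Real.exp (-(B * Real.log (Real.log N) ^ 2)) →
  ∀ y : ℕ → ℕ → ℕ, (∀ q r, y q r ≤ n) →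
    ∑ q ∈ Icc 1 Q, ∑ r ∈ (range q).filter (fun r => r.Coprime q),
      ((count q r u (y q r) : ℝ) - logSum u (y q r) / Nat.totient q) ^ 2 ≤ (N : ℝ) ^ 2 / (Real.log N) ^ A

/-- the two assertions for one `n` -/
def Holds (δ : ℝ) (A B N n : ℕ) : Prop :=
  |(cA n : ℝ) - n / (2 * Real.log n)| ≤ δ * (n / (2 * Real.log n)) ∧
  |(cB n : ℝ) - n / (2 * Real.log n)| ≤ δ * (n / (2 * Real.log n)) ∧
  Classes A B N n (n ^ 2 - n) ∧ Classes A B N n (n ^ 2)

lemma count_eq (q r u y : ℕ) :
    (Pool.Agent.helper24_UT.pcl q r (u + y) : ℝ) - Pool.Agent.helper24_UT.pcl q r u = count q r u y := by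
  unfold Pool.Agent.helper24_UT.pcl count
  have h1 : (Icc 1 (u + y)).filter (fun p => p.Prime ∧ p % q = r) =
      (Icc 1 u).filter (fun p => p.Prime ∧ p % q = r) ∪ (Ioc u (u + y)).filter (fun p => p.Prime ∧ p % q = r) := by
    ext p
    simp only [mem_union, mem_filter, mem_Icc, mem_Ioc]
    constructor
    · rintro ⟨⟨h2, h3⟩, h4⟩
      rcases Nat.lt_or_ge u p with h5 | h5
      · exact Or.inr ⟨⟨h5, h3⟩, h4⟩
      · exact Or.inl ⟨⟨h2, h5⟩, h4⟩
    · rintro (⟨⟨h2, h3⟩, h4⟩ | ⟨⟨h2, h3⟩, h4⟩)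
      · exact ⟨⟨h2, by omega⟩, h4⟩
      · exact ⟨⟨by omega, h3⟩, h4⟩
  have h2 : Disjoint ((Icc 1 u).filter (fun p => p.Prime ∧ p % q = r))
      ((Ioc u (u + y)).filter (fun p => p.Prime ∧ p % q = r)) := by
    rw [disjoint_left]
    intro p hp hp'
    rw [mem_filter, mem_Icc] at hp
    rw [mem_filter, mem_Ioc] at hp'
    omega
  rw [h1, card_union_of_disjoint h2]
  push_cast
  ring

lemma classes_of {A B N n u : ℕ} (h : Pool.Agent.helper24_UT.Good33 A B N n u) : Classes A B N n u := by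
  intro Q hQ y hy
  have h1 := h Q hQ y hy
  simp only [count_eq] at h1
  refine le_trans (le_of_eq ?_) h1
  apply sum_congr rfl
  intro q _
  apply sum_congr rfl
  intro r _
  unfold logSum
  congr 2
  ring

/-- the primes of the closed intervals -/
lemma cA_eq {n : ℕ} (hn : 3 ≤ n) : cA n = count 1 0 (n ^ 2 - n) n := by
  unfold cA count
  have h1 : n ≤ n ^ 2 := by nlinarith
  have h2 : n ^ 2 - n + n = n ^ 2 := by omega
  rw [h2]
  congr 1
  ext p
  simp only [mem_filter, mem_Icc, mem_Ioc]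
  constructor
  · rintro ⟨⟨h3, h4⟩, h5⟩
    refine ⟨⟨lt_of_le_of_ne h3 ?_, h4⟩, h5, Nat.mod_one _⟩
    intro h6
    have h7 : p = n * (n - 1) := by
      rw [← h6, Nat.mul_sub, mul_one, sq]
    rw [h7] at h5
    exact Nat.not_prime_mul (by omega) (by omega) h5
  · rintro ⟨⟨h3, h4⟩, h5, -⟩
    exact ⟨⟨h3.le, h4⟩, h5⟩

lemma cB_eq {n : ℕ} (hn : 3 ≤ n) : cB n = count 1 0 (n ^ 2) n := by
  unfold cB count
  congr 1
  ext p
  simp only [mem_filter, mem_Icc, mem_Ioc]
  constructor
  · rintro ⟨⟨h3, h4⟩, h5⟩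
    refine ⟨⟨lt_of_le_of_ne h3 ?_, h4⟩, h5, Nat.mod_one _⟩
    intro h6
    rw [← h6, sq] at h5
    exact Nat.not_prime_mul (by omega) (by omega) h5
  · rintro ⟨⟨h3, h4⟩, h5, -⟩
    exact ⟨⟨h3.le, h4⟩, h5⟩

/-- the expected number -/
lemma logSum_bounds {n u : ℕ} (hn : 3 ≤ n) (hu1 : n ^ 2 ≤ 2 * u) (hu2 : u + n ≤ 2 * n ^ 2) :
    n / (2 * Real.log n + Real.log 2) ≤ logSum u n ∧ logSum u n ≤ n / (2 * Real.log n - Real.log 2) := by
  have hn0 : (0 : ℝ) < n := by exact_mod_cast (by omega : 0 < n)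
  have hl : 1 < Real.log n := by
    rw [Real.lt_log_iff_exp_lt hn0]
    have : (3 : ℝ) ≤ n := by exact_mod_cast hn
    linarith [Real.exp_one_lt_d9]
  have hl2 : Real.log 2 < 1 := by linarith [Real.log_two_lt_d9]
  have hl2' : 0 < Real.log 2 := Real.log_pos (by norm_num)
  have hcard : ((Ioc u (u + n)).card : ℝ) = n := by rw [Nat.card_Ioc]; congr 1; omega
  have hup : ∀ m ∈ Ioc u (u + n), Real.log (m : ℝ) ≤ 2 * Real.log n + Real.log 2 := by
    intro m hm
    rw [mem_Ioc] at hm
    have h1 : (m : ℝ) ≤ 2 * (n : ℝ) ^ 2 := by exact_mod_cast hm.2.trans hu2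
    have h2 : (0 : ℝ) < m := by exact_mod_cast (by omega : 0 < m)
    calc Real.log (m : ℝ) ≤ Real.log (2 * (n : ℝ) ^ 2) := Real.log_le_log h2 h1
      _ = 2 * Real.log n + Real.log 2 := by
        rw [Real.log_mul (by norm_num) (by positivity), Real.log_pow]
        push_cast
        ring
  have hlow : ∀ m ∈ Ioc u (u + n), 2 * Real.log n - Real.log 2 ≤ Real.log (m : ℝ) := by
    intro m hm
    rw [mem_Ioc] at hm
    have h1 : (n : ℝ) ^ 2 / 2 ≤ m := by
      have : (n : ℝ) ^ 2 ≤ 2 * u := by exact_mod_cast hu1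
      have : (u : ℝ) ≤ m := by exact_mod_cast hm.1.le
      linarith
    calc 2 * Real.log n - Real.log 2 = Real.log ((n : ℝ) ^ 2 / 2) := by
          rw [Real.log_div (by positivity) (by norm_num), Real.log_pow]
          push_cast
          ring
      _ ≤ _ := Real.log_le_log (by positivity) h1
  unfold logSum
  constructor
  · calc (n : ℝ) / (2 * Real.log n + Real.log 2) = ∑ _m ∈ Ioc u (u + n), 1 / (2 * Real.log n + Real.log 2) := by
          rw [sum_const, nsmul_eq_mul, hcard, mul_one_div]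
      _ ≤ _ := sum_le_sum fun m hm => one_div_le_one_div_of_le (by linarith [hlow m hm]) (hup m hm)
  · calc _ ≤ ∑ _m ∈ Ioc u (u + n), 1 / (2 * Real.log n - Real.log 2) :=
          sum_le_sum fun m hm => one_div_le_one_div_of_le (by linarith) (hlow m hm)
      _ = _ := by rw [sum_const, nsmul_eq_mul, hcard, mul_one_div]

/-- the number of primes in one of the intervals -/
lemma one_interval {δ : ℝ} (hδ : 0 < δ) (hδ1 : δ ≤ 1) {n : ℕ} (hn : 3 ≤ n) (hbig : 8 ≤ δ * Real.log n) {G S R : ℝ}
    (hS : n / (2 * Real.log n + Real.log 2) ≤ S ∧ S ≤ n / (2 * Real.log n - Real.log 2)) (hG : |G - S| ≤ R)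
    (hR : R ≤ δ / 2 * (n / (2 * Real.log n))) : |G - n / (2 * Real.log n)| ≤ δ * (n / (2 * Real.log n)) := by
  have hn0 : (0 : ℝ) < n := by exact_mod_cast (by omega : 0 < n)
  have hl8 : 8 ≤ Real.log n := by nlinarith
  have hl2 : Real.log 2 < 1 := by linarith [Real.log_two_lt_d9]
  have hl2' : 0 < Real.log 2 := Real.log_pos (by norm_num)
  set T := (n : ℝ) / (2 * Real.log n) with hT
  have hT0 : 0 < T := by positivity
  have h1 : n / (2 * Real.log n - Real.log 2) ≤ (1 + δ / 2) * T := by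
    rw [hT, div_le_iff₀ (by linarith)]
    have : (1 + δ / 2) * (n / (2 * Real.log n)) * (2 * Real.log n - Real.log 2) =
        n * ((1 + δ / 2) * (1 - Real.log 2 / (2 * Real.log n))) := by
      field_simp
    rw [this]
    have h2 : Real.log 2 / (2 * Real.log n) ≤ δ / 16 := by
      rw [div_le_iff₀ (by linarith)]
      nlinarith
    have h3 : 1 ≤ (1 + δ / 2) * (1 - Real.log 2 / (2 * Real.log n)) := by nlinarith
    nlinarith
  have h2 : (1 - δ / 2) * T ≤ n / (2 * Real.log n + Real.log 2) := by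
    rw [hT, le_div_iff₀ (by linarith)]
    have : (1 - δ / 2) * (n / (2 * Real.log n)) * (2 * Real.log n + Real.log 2) =
        n * ((1 - δ / 2) * (1 + Real.log 2 / (2 * Real.log n))) := by
      field_simp
    rw [this]
    have h2 : Real.log 2 / (2 * Real.log n) ≤ δ / 16 := by
      rw [div_le_iff₀ (by linarith)]
      nlinarith
    have h2' : 0 ≤ Real.log 2 / (2 * Real.log n) := by positivity
    have h3 : (1 - δ / 2) * (1 + Real.log 2 / (2 * Real.log n)) ≤ 1 := by nlinarith
    nlinarith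
  rw [abs_le] at hG ⊢
  constructor
  · nlinarith [hS.1]
  · nlinarith [hS.2]

open Classical in
/-- **Primes in almost all Oppermann intervals, in all classes to all moduli.** -/
theorem result (δ : ℝ) (A : ℕ) (hδ : 0 < δ) : ∃ B N₀ : ℕ, ∀ N : ℕ, N₀ ≤ N →
    (((Icc 1 N).filter (fun n => ¬ Holds δ A B N n)).card : ℝ) ≤ N / (Real.log N) ^ A := by
  obtain ⟨η, hη0, hη1, hηδ⟩ : ∃ η : ℝ, 0 < η ∧ η ≤ 1 ∧ η ≤ δ :=
    ⟨min 1 δ, lt_min one_pos hδ, min_le_left _ _, min_le_right _ _⟩
  obtain ⟨B, N₀, h⟩ := Pool.Agent.helper24_UT.Ch.t_OPP (2 * A + 8)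
  have hlog : Filter.Tendsto (fun N : ℕ => Real.log (N : ℝ)) Filter.atTop Filter.atTop :=
    Real.tendsto_log_atTop.comp tendsto_natCast_atTop_atTop
  have e1 : ∀ᶠ N : ℕ in Filter.atTop, 16 / η + 2 ≤ Real.log N := hlog.eventually_ge_atTop _
  have e2 : ∀ᶠ x : ℝ in Filter.atTop, ‖Real.log x ^ (2 * (A + 1))‖ ≤ 1 / 9 * ‖x‖ :=
    (Real.isLittleO_pow_log_id_atTop (n := 2 * (A + 1))).bound (by positivity)
  have e3 : ∀ᶠ x : ℝ in Filter.atTop, ‖Real.log x ^ 2‖ ≤ 1 / (B + 1 : ℝ) * ‖x‖ :=
    (Real.isLittleO_pow_log_id_atTop (n := 2)).bound (by positivity)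
  have e2' := (tendsto_natCast_atTop_atTop (R := ℝ)).eventually e2
  have e3' := hlog.eventually e3
  obtain ⟨N₁, hN₁⟩ := Filter.eventually_atTop.1 (e1.and (e2'.and e3'))
  refine ⟨B, max (max N₀ N₁) 1, fun N hN => ?_⟩
  have hNN0 : N₀ ≤ N := (le_max_left _ _).trans ((le_max_left _ _).trans hN)
  obtain ⟨hL, h2, h3⟩ := hN₁ N ((le_max_right _ _).trans ((le_max_left _ _).trans hN))
  have hN1 : 1 ≤ N := (le_max_right _ _).trans hN
  have hN0 : (0 : ℝ) < N := by exact_mod_cast hN1
  have h0 := h N hNN0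
  set L := Real.log N with hLdef
  have hη16 : 0 < 16 / η := by positivity
  have hL2 : 2 ≤ L := by linarith
  have hLη : 16 / η ≤ L := by linarith
  have hLp : 0 < L := by linarith
  have hQ1 : 1 ≤ N * Real.exp (-(B * Real.log L ^ 2)) := by
    rw [Real.norm_eq_abs, Real.norm_eq_abs, abs_of_pos hLp] at h3
    have g4 := (le_abs_self _).trans h3
    have hB : (0 : ℝ) ≤ B := Nat.cast_nonneg _
    rw [div_mul_eq_mul_div, one_mul, le_div_iff₀ (by positivity)] at g4
    have g5 : B * Real.log L ^ 2 ≤ L := by nlinarith [sq_nonneg (Real.log L)]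
    calc (1 : ℝ) = N * Real.exp (-Real.log N) := by rw [Real.exp_neg, Real.exp_log hN0, mul_inv_cancel₀ hN0.ne']
      _ ≤ _ := by
        apply mul_le_mul_of_nonneg_left _ hN0.le
        apply Real.exp_le_exp.2
        linarith
  have h2' : 9 * L ^ (2 * (A + 1)) ≤ N := by
    rw [Real.norm_eq_abs, Real.norm_eq_abs, abs_of_pos hN0] at h2
    have := (le_abs_self _).trans h2
    linarith
  set T := (N : ℝ) / L ^ (A + 1) with hTdef
  have hT0 : 0 < T := by positivity
  have hsub : (Icc 1 N).filter (fun n => ¬ Holds δ A B N n) ⊆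
      ((Icc 1 N).filter (fun n => ¬ (Pool.Agent.helper24_UT.Good33 (2 * A + 8) B N n (n ^ 2 - n) ∧
        Pool.Agent.helper24_UT.Good33 (2 * A + 8) B N n (n ^ 2)))) ∪ ((Icc 1 N).filter (fun n : ℕ => (n : ℝ) ≤ T)) := by
    intro n hn
    rw [mem_filter] at hn
    rw [mem_union, mem_filter, mem_filter]
    by_contra hcon
    rw [not_or] at hcon
    have hg : Pool.Agent.helper24_UT.Good33 (2 * A + 8) B N n (n ^ 2 - n) ∧
        Pool.Agent.helper24_UT.Good33 (2 * A + 8) B N n (n ^ 2) := by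
      by_contra hg
      exact hcon.1 ⟨hn.1, hg⟩
    have hnT : T < n := by
      by_contra hnT
      exact hcon.2 ⟨hn.1, not_lt.1 hnT⟩
    have hn1 := mem_Icc.1 hn.1
    have hnN : (n : ℝ) ≤ N := by exact_mod_cast hn1.2
    -- `n ≥ 3 L ^ (A + 1)`, `log n ≥ L / 2`
    have hn3 : 3 ≤ n := by
      have h5 : (9 : ℝ) ≤ n := by
        have h6 : 9 * L ^ (A + 1) ≤ T := by
          rw [hTdef, le_div_iff₀ (by positivity)]
          calc 9 * L ^ (A + 1) * L ^ (A + 1) = 9 * L ^ (2 * (A + 1)) := by ring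
            _ ≤ N := h2'
        have h7 : 1 ≤ L ^ (A + 1) := one_le_pow₀ (by linarith)
        nlinarith
      exact_mod_cast (by linarith : (3 : ℝ) ≤ n)
    have hn0 : (0 : ℝ) < n := by exact_mod_cast (by omega : 0 < n)
    have hlogn : L / 2 ≤ Real.log n := by
      have h6 : (N : ℝ) ≤ (n : ℝ) ^ 2 := by
        have h7 : (N : ℝ) ≤ n * L ^ (A + 1) := by
          have := hnT.le
          rw [hTdef, div_le_iff₀ (by positivity)] at this
          exact this
        have h8 : L ^ (A + 1) ≤ n := by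
          have h9 : L ^ (A + 1) ≤ T := by
            rw [hTdef, le_div_iff₀ (by positivity)]
            calc L ^ (A + 1) * L ^ (A + 1) = L ^ (2 * (A + 1)) := by ring
              _ ≤ 9 * L ^ (2 * (A + 1)) := by nlinarith [pow_pos hLp (2 * (A + 1))]
              _ ≤ N := h2'
          linarith
        calc (N : ℝ) ≤ n * L ^ (A + 1) := h7
          _ ≤ n * n := mul_le_mul_of_nonneg_left h8 hn0.le
          _ = (n : ℝ) ^ 2 := by ring
      have h7 : L ≤ 2 * Real.log n := by
        calc L ≤ Real.log ((n : ℝ) ^ 2) := Real.log_le_log hN0 h6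
          _ = 2 * Real.log n := by rw [Real.log_pow]; push_cast; ring
      linarith
    have hlogn' : Real.log n ≤ L := Real.log_le_log hn0 hnN
    have hlogn0 : 0 < Real.log n := by linarith
    have hbig : 8 ≤ η * Real.log n := by
      have h5 : 16 ≤ η * L := by
        rw [div_le_iff₀ hη0] at hLη
        linarith
      nlinarith
    -- the error term
    have hR : (N : ℝ) / L ^ (A + 4) ≤ η / 2 * (n / (2 * Real.log n)) := by
      have h5 : (N : ℝ) < n * L ^ (A + 1) := by
        rw [hTdef, div_lt_iff₀ (by positivity)] at hnT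
        exact hnT
      have h6 : 4 ≤ η * L ^ 2 := by
        have h7 : 16 ≤ η * L := by
          rw [div_le_iff₀ hη0] at hLη
          linarith
        nlinarith
      calc (N : ℝ) / L ^ (A + 4) ≤ n * L ^ (A + 1) / L ^ (A + 4) := by
            apply div_le_div_of_nonneg_right h5.le (by positivity)
        _ = n / L * (1 / L ^ 2) := by
            rw [show A + 4 = (A + 1) + 3 by ring, pow_add L (A + 1) 3]
            field_simp
        _ ≤ n / L * (η / 4) := by
            apply mul_le_mul_of_nonneg_left _ (by positivity)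
            rw [div_le_iff₀ (by positivity)]
            linarith
        _ ≤ n / Real.log n * (η / 4) := by
            apply mul_le_mul_of_nonneg_right _ (by positivity)
            exact div_le_div_of_nonneg_left hn0.le hlogn0 hlogn'
        _ = η / 2 * (n / (2 * Real.log n)) := by ring
    have hone : ∀ u : ℕ, n ^ 2 ≤ 2 * u → u + n ≤ 2 * n ^ 2 → Pool.Agent.helper24_UT.Good33 (2 * A + 8) B N n u →
        |(count 1 0 u n : ℝ) - n / (2 * Real.log n)| ≤ δ * (n / (2 * Real.log n)) := by
      intro u hu1 hu2 hgu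
      have h5 := classes_of hgu 1 (by rw [Nat.cast_one]; exact hQ1) (fun _ _ => n) (fun _ _ => le_rfl)
      have hres : (range 1).filter (fun r : ℕ => r.Coprime 1) = {0} := by
        ext r
        rw [mem_filter, mem_range, mem_singleton]
        constructor
        · rintro ⟨h6, _⟩
          omega
        · rintro rfl
          exact ⟨by omega, Nat.coprime_one_right 0⟩
      rw [Icc_self, sum_singleton, hres, sum_singleton, Nat.totient_one, Nat.cast_one, div_one] at h5
      have h6 : |(count 1 0 u n : ℝ) - logSum u n| ≤ N / L ^ (A + 4) := by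
        apply abs_le_of_sq_le_sq _ (by positivity)
        rw [div_pow, ← pow_mul, mul_comm (A + 4) 2, mul_add]
        exact h5
      refine (one_interval hη0 hη1 hn3 hbig (logSum_bounds hn3 hu1 hu2) h6 hR).trans ?_
      exact mul_le_mul_of_nonneg_right hηδ (by positivity)
    have hmono : ∀ u : ℕ, Pool.Agent.helper24_UT.Good33 (2 * A + 8) B N n u → Classes A B N n u := by
      intro u hgu Q hQ y hy
      refine (classes_of hgu Q hQ y hy).trans ?_
      apply div_le_div_of_nonneg_left (by positivity) (by positivity)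
      exact pow_le_pow_right₀ (by linarith) (by omega)
    apply hn.2
    have hsq : n * 3 ≤ n ^ 2 := by nlinarith
    refine ⟨?_, ?_, hmono _ hg.1, hmono _ hg.2⟩
    · rw [cA_eq hn3]
      exact hone (n ^ 2 - n) (by omega) (by omega) hg.1
    · rw [cB_eq hn3]
      exact hone (n ^ 2) (by omega) (by omega) hg.2
  have hcard2 : (((Icc 1 N).filter (fun n : ℕ => (n : ℝ) ≤ T)).card : ℝ) ≤ (1 / 2) * (N / L ^ A) := by
    have h5 : (Icc 1 N).filter (fun n : ℕ => (n : ℝ) ≤ T) ⊆ Icc 1 ⌊T⌋₊ := by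
      intro n hn
      rw [mem_filter, mem_Icc] at hn
      rw [mem_Icc]
      exact ⟨hn.1.1, Nat.le_floor hn.2⟩
    have h6 := card_le_card h5
    rw [Nat.card_Icc, Nat.add_sub_cancel] at h6
    refine (Nat.cast_le.2 h6).trans ((Nat.floor_le hT0.le).trans ?_)
    rw [hTdef, pow_succ]
    calc (N : ℝ) / (L ^ A * L) ≤ N / (L ^ A * 2) := by
          apply div_le_div_of_nonneg_left hN0.le (by positivity)
          exact mul_le_mul_of_nonneg_left hL2 (by positivity)
      _ = _ := by ring
  have hcard1 : (((Icc 1 N).filter (fun n => ¬ (Pool.Agent.helper24_UT.Good33 (2 * A + 8) B N n (n ^ 2 - n) ∧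
        Pool.Agent.helper24_UT.Good33 (2 * A + 8) B N n (n ^ 2)))).card : ℝ) ≤ (1 / 2) * (N / L ^ A) := by
    refine h0.trans ?_
    calc (N : ℝ) / L ^ (2 * A + 8) ≤ N / (L ^ A * 2) := by
          apply div_le_div_of_nonneg_left hN0.le (by positivity)
          calc L ^ A * 2 ≤ L ^ A * L := mul_le_mul_of_nonneg_left hL2 (by positivity)
            _ = L ^ (A + 1) := by ring
            _ ≤ L ^ (2 * A + 8) := pow_le_pow_right₀ (by linarith) (by omega)
      _ = _ := by ring
  calc (((Icc 1 N).filter (fun n => ¬ Holds δ A B N n)).card : ℝ) ≤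
      (((Icc 1 N).filter (fun n => ¬ (Pool.Agent.helper24_UT.Good33 (2 * A + 8) B N n (n ^ 2 - n) ∧
        Pool.Agent.helper24_UT.Good33 (2 * A + 8) B N n (n ^ 2)))).card : ℝ) +
      ((Icc 1 N).filter (fun n : ℕ => (n : ℝ) ≤ T)).card := by
        have := (card_le_card hsub).trans (card_union_le _ _)
        exact_mod_cast this
    _ ≤ (1 / 2) * (N / L ^ A) + (1 / 2) * (N / L ^ A) := add_le_add hcard1 hcard2
    _ = _ := by ring

end Pool.Agent.Results.MP_a8fbd7_nt.AlmostAllAllModuli
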